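import Pool.Agent.V5helper50.RC.Stm
import Pool.Agent.TH854.KS.K6

/-!
# Project RC, job LOWD: no order of magnitude in the dimensions `d ≤ k + 1`
-/

set_option autoImplicit false

open Finset MeasureTheory ProbabilityTheory

namespace V5helper96.RC

open Pool.Agent
open Pool.Agent.V5helper50.RC (A N Order Chain)
open Pool.Agent.V5helper50.RS (Tk)

/-- the densities modulo `W` are unbounded in the dimensions `k`, `k + 1` -/
theorem unb {k d : ℕ} (hk : 3 ≤ k) (hd : d = k ∨ d = k + 1) (B : ℝ) :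
    ∃ W : ℕ, 0 < W ∧ B * (W : ℝ) ^ (d - 1) ≤ (TH854.KS.M W k d : ℝ) := by
  classical
  obtain ⟨N0, hN0⟩ := exists_nat_ge ((2 * ((k : ℝ) ^ (k + 1) + 1)) ^ 2)
  obtain ⟨P, hP, hB⟩ := TH854.KS.exists_primes N0 B
  set W := ∏ p ∈ P, p ^ k with hW
  have hWpos : 0 < W := by
    rw [hW]
    exact prod_pos (fun p hp => pow_pos (hP p hp).1.pos _)
  refine ⟨W, hWpos, ?_⟩
  have h2 : (TH854.KS.M W k d : ℝ) = ∏ p ∈ P, (TH854.KS.M (p ^ k) k d : ℝ) := by
    rw [hW, TH854.KS.M_prod P (fun p hp => (hP p hp).1)]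
    push_cast
    rfl
  have h3 : (∏ p ∈ P, (1 + 1 / (2 * (p : ℝ)))) * (W : ℝ) ^ (d - 1) ≤ (TH854.KS.M W k d : ℝ) := by
    rw [h2, hW]
    push_cast
    rw [← prod_pow, ← prod_mul_distrib]
    apply prod_le_prod
    · intro p _; positivity
    · intro p hp
      have : Fact p.Prime := ⟨(hP p hp).1⟩
      have h4 := TH854.KS.density (p := p) hk hd (hN0.trans (by exact_mod_cast (hP p hp).2))
      rw [pow_mul] at h4
      exact h4
  have hW1 : (0 : ℝ) < (W : ℝ) ^ (d - 1) := by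
    have : (0 : ℝ) < W := by exact_mod_cast hWpos
    positivity
  exact (mul_le_mul_of_nonneg_right hB hW1.le).trans h3

theorem le_A {k : ℕ} {q : ℕ → ℕ} (hk : 1 ≤ k) (t : ℕ → ℕ) (x : ℕ) : x ≤ A k q t x :=
  (Nat.le_self_pow (by omega) x).trans (Nat.le_add_right _ _)

theorem N_finite {k : ℕ} {q : ℕ → ℕ} (hk : 1 ≤ k) (t : ℕ → ℕ) (d u : ℕ) :
    {z : Fin d → ℤ | ∑ i, A k q t (z i).natAbs = u}.Finite := by
  apply Set.Finite.subset (Set.Finite.pi' (fun _ : Fin d => Set.finite_Icc (-(u : ℤ)) u))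
  intro z hz i
  have hz' : ∑ i, A k q t (z i).natAbs = u := hz
  have h1 : A k q t (z i).natAbs ≤ u := by
    rw [← hz']
    exact single_le_sum (f := fun i => A k q t (z i).natAbs) (fun _ _ => Nat.zero_le _) (mem_univ i)
  have h2 := (le_A (q := q) hk t (z i).natAbs).trans h1
  rw [Set.mem_Icc]
  omega

theorem sq_le_two_pow (n : ℕ) : n ^ 2 ≤ 2 ^ n + 1 := by
  rcases Nat.lt_or_ge n 4 with h | h
  · interval_cases n <;> norm_num
  · have h1 : n ^ 2 ≤ 2 ^ n := by
      induction n, h using Nat.le_induction with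
      | base => norm_num
      | succ n hn ih =>
        have : (n + 1) ^ 2 ≤ 2 * n ^ 2 := by nlinarith
        calc (n + 1) ^ 2 ≤ 2 * n ^ 2 := this
          _ ≤ 2 * 2 ^ n := Nat.mul_le_mul_left _ ih
          _ = 2 ^ (n + 1) := by rw [pow_succ, mul_comm]
    omega

theorem slow_le {K : ℕ} {q : ℕ → ℕ} (hq : Chain K q) (k X : ℕ)
    (hX : 16 * k * K + 2 + 64 * k ^ 2 ≤ X) : q X * (4 * k) ≤ X := by
  have h1 := hq.slow X
  set n := Nat.log 2 (X + 1) with hn
  have h2 : 2 ^ n ≤ X + 1 := Nat.pow_log_le_self 2 (by omega)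
  have h3 := sq_le_two_pow n
  have h4 : n ^ 2 ≤ X + 2 := by omega
  have h5 : 16 * k * n ≤ n ^ 2 + 64 * k ^ 2 := by
    zify
    nlinarith [sq_nonneg ((n : ℤ) - 8 * k)]
  have h6 : q X * (4 * k) ≤ (K + n) * (4 * k) := Nat.mul_le_mul_right _ h1
  have h7 : 4 * ((K + n) * (4 * k)) = 16 * k * K + 16 * k * n := by ring
  omega

/-- the averaging argument -/
theorem avg {k K d W x₀ : ℕ} {q : ℕ → ℕ} (hk : 3 ≤ k) (hd : d = k ∨ d = k + 1) (hq : Chain K q)
    (hW : 0 < W) (hx₀ : W ∣ q x₀) (t : ℕ → ℕ) (ht : ∀ x, t x < Tk k x) (u₀ : ℕ) (C : ℝ)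
    (hC : 0 ≤ C) (H : ∀ u ≥ u₀, (N k q t d u : ℝ) ≤ C * (u : ℝ) ^ ((d : ℝ) / k - 1)) :
    (TH854.KS.M W k d : ℝ) ≤ (1 + 4 * d ^ 2 * 2 ^ d * C + 4 * d * C) * (W : ℝ) ^ (d - 1) := by
  classical
  have hdk : k ≤ d := by omega
  set L := 16 * k * K + 2 + 64 * k ^ 2 + u₀ + x₀ with hL
  have hL1 : 1 ≤ L := by omega
  set X := W * (L + x₀) with hX
  have hLX : L ≤ X := by
    rw [hX]
    calc L ≤ 1 * (L + x₀) := by omega
      _ ≤ W * (L + x₀) := Nat.mul_le_mul_right _ hW
  have hX1 : 1 ≤ X := hL1.trans hLX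
  have hqX : q X * (4 * k) ≤ X := slow_le hq k X (by omega)
  have hX2 : X ≤ 2 * (W * L) := by
    rw [hX]
    calc W * (L + x₀) ≤ W * (2 * L) := Nat.mul_le_mul_left _ (by omega)
      _ = _ := by ring
  have haX : ∀ y, y < X → A k q t y ≤ 2 * X ^ k := by
    intro y hy
    unfold A
    have h1 : y ^ k ≤ X ^ k := Nat.pow_le_pow_left hy.le k
    have h2 : t y ≤ max 1 (4 * k * X ^ (k - 1)) := by
      refine (ht y).le.trans ?_
      unfold Tk
      gcongr
    have h4k : 1 ≤ 4 * k * X ^ (k - 1) := Nat.mul_pos (by omega) (pow_pos hX1 _)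
    rw [max_eq_right h4k] at h2
    have h3 : q y * t y ≤ X ^ k := by
      calc q y * t y ≤ q X * (4 * k * X ^ (k - 1)) := Nat.mul_le_mul (hq.mono hy.le) h2
        _ = (q X * (4 * k)) * X ^ (k - 1) := by ring
        _ ≤ X * X ^ (k - 1) := Nat.mul_le_mul_right _ hqX
        _ = X ^ (k - 1 + 1) := by rw [pow_succ]; ring
        _ = X ^ k := by congr 1; omega
    omega
  set s := W * x₀ with hs
  have hs0 : x₀ ≤ s := by
    rw [hs]
    exact Nat.le_mul_of_pos_left _ hW
  have hWq : ∀ y, W ∣ q (y + s) := fun y => hx₀.trans (hq.dvd (by omega))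
  set B := (TH854.KS.Box d (W * L)).filter (fun y => W ∣ ∑ i, y i ^ k) with hB
  have hlt : ∀ y ∈ B, ∀ i, y i + s < X := by
    intro y hy i
    rw [hB, mem_filter, TH854.KS.mem_Box] at hy
    have := hy.1 i
    rw [hX, hs, mul_add]
    omega
  set S := (range (2 * d * X ^ k + 1)).filter (fun n => W ∣ n) with hS
  have hmaps : ∀ y ∈ B, ∑ i, A k q t (y i + s) ∈ S := by
    intro y hy
    have hy' := hlt y hy
    rw [hB, mem_filter, TH854.KS.mem_Box] at hy
    rw [hS, mem_filter, mem_range]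
    constructor
    · have : ∑ i, A k q t (y i + s) ≤ ∑ _i : Fin d, 2 * X ^ k :=
        sum_le_sum fun i _ => haX _ (hy' i)
      rw [sum_const, card_univ, Fintype.card_fin, smul_eq_mul] at this
      have e : d * (2 * X ^ k) = 2 * d * X ^ k := by ring
      omega
    · unfold A
      rw [sum_add_distrib]
      refine Dvd.dvd.add ?_ ?_
      · have h1 : (∑ i, (y i + s) ^ k) ≡ (∑ i, y i ^ k) [MOD W] := by
          have h2 : ∀ i, (y i + s) ^ k ≡ y i ^ k [MOD W] := by
            intro i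
            apply Nat.ModEq.pow
            rw [hs]
            unfold Nat.ModEq
            rw [Nat.add_mul_mod_self_left]
          unfold Nat.ModEq
          rw [Finset.sum_nat_mod, Finset.sum_nat_mod (f := fun i => y i ^ k)]
          congr 1
          exact sum_congr rfl fun i _ => h2 i
        exact (Nat.modEq_zero_iff_dvd.mp (h1.trans (Nat.modEq_zero_iff_dvd.mpr hy.2)))
      · exact dvd_sum fun i _ => (hWq (y i)).mul_right _
  have h1 : L ^ d * TH854.KS.M W k d ≤ B.card := TH854.KS.box_ge hW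
  rw [card_eq_sum_card_fiberwise hmaps, ← sum_filter_add_sum_filter_not S (fun n => n < u₀)] at h1
  have h2 : ∑ n ∈ S.filter (fun n => n < u₀), (B.filter (fun y => ∑ i, A k q t (y i + s) = n)).card ≤
      u₀ ^ d := by
    have e : u₀ ^ d = (TH854.KS.Box d u₀).card := by
      simp [TH854.KS.Box]
    rw [e, ← card_biUnion]
    · apply card_le_card
      intro y hy
      rw [mem_biUnion] at hy
      obtain ⟨n, hn, hy⟩ := hy
      rw [mem_filter] at hn hy
      rw [TH854.KS.mem_Box]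
      intro i
      have h3 : A k q t (y i + s) ≤ n := by
        rw [← hy.2]
        exact single_le_sum (f := fun i => A k q t (y i + s)) (fun _ _ => Nat.zero_le _) (mem_univ i)
      have h4 := le_A (q := q) (by omega : 1 ≤ k) t (y i + s)
      have h5 := hn.2
      omega
    · intro n _ n' _ hnn
      rw [Function.onFun, disjoint_left]
      intro y hy hy'
      rw [mem_filter] at hy hy'
      exact hnn (hy.2.symm.trans hy'.2)
  have hk0 : (0 : ℝ) < k := by exact_mod_cast (by omega : 0 < k)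
  have hpow : ∀ n ∈ S, (n : ℝ) ^ ((d : ℝ) / k - 1) ≤ 2 * d * (X : ℝ) ^ (d - k) := by
    intro n hn
    rw [hS, mem_filter, mem_range] at hn
    have hn1 : (n : ℝ) ≤ 2 * d * (X : ℝ) ^ k := by exact_mod_cast (by omega : n ≤ 2 * d * X ^ k)
    have hd1 : (1 : ℝ) ≤ d := by exact_mod_cast (by omega : 1 ≤ d)
    rcases hd with hd | hd
    · subst hd
      rw [div_self hk0.ne', sub_self, Real.rpow_zero, Nat.sub_self, pow_zero]
      linarith
    · have e1 : (d : ℝ) / k - 1 = 1 / k := by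
        rw [hd]
        push_cast
        field_simp
        ring
      have e2 : d - k = 1 := by omega
      rw [e1, e2, pow_one]
      have h4 : (n : ℝ) ≤ (2 * d * (X : ℝ)) ^ k := by
        rw [mul_pow]
        refine hn1.trans ?_
        refine mul_le_mul_of_nonneg_right ?_ (by positivity)
        exact le_self_pow₀ (by linarith) (by omega)
      calc (n : ℝ) ^ (1 / (k : ℝ)) ≤ ((2 * d * (X : ℝ)) ^ k) ^ (1 / (k : ℝ)) :=
            Real.rpow_le_rpow (by positivity) h4 (by positivity)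
        _ = 2 * d * (X : ℝ) := by
            rw [one_div]
            exact Real.pow_rpow_inv_natCast (by positivity) (by omega)
  have h3 : ((∑ n ∈ S.filter (fun n => ¬ n < u₀),
      (B.filter (fun y => ∑ i, A k q t (y i + s) = n)).card : ℕ) : ℝ) ≤
      (2 * d * (X : ℝ) ^ k / W + 1) * (C * (2 * d * (X : ℝ) ^ (d - k))) := by
    push_cast
    have h4 : ∀ n ∈ S.filter (fun n => ¬ n < u₀),
        ((B.filter (fun y => ∑ i, A k q t (y i + s) = n)).card : ℝ) ≤
          C * (2 * d * (X : ℝ) ^ (d - k)) := by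
      intro n hn
      rw [mem_filter] at hn
      refine le_trans ?_ ((H n (by omega)).trans (mul_le_mul_of_nonneg_left (hpow n hn.1) hC))
      have h5 : (B.filter (fun y => ∑ i, A k q t (y i + s) = n)).card ≤ N k q t d n := by
        unfold N
        rw [← Set.ncard_coe_finset]
        refine Set.ncard_le_ncard_of_injOn (fun y i => ((y i + s : ℕ) : ℤ)) ?_ ?_
          (N_finite (by omega) t d n)
        · intro y hy
          rw [mem_coe, mem_filter] at hy
          show ∑ i, A k q t (((y i + s : ℕ) : ℤ)).natAbs = n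
          simp only [Int.natAbs_natCast]
          exact hy.2
        · intro y _ y' _ h
          funext i
          have h6 : ((y i + s : ℕ) : ℤ) = ((y' i + s : ℕ) : ℤ) := congrFun h i
          have h7 : y i + s = y' i + s := by exact_mod_cast h6
          omega
      exact_mod_cast h5
    refine (sum_le_sum h4).trans ?_
    rw [sum_const, nsmul_eq_mul]
    refine mul_le_mul_of_nonneg_right ?_ (by positivity)
    have h6 : S.card ≤ 2 * d * X ^ k / W + 1 := by
      rw [hS]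
      have h7 : ((range (2 * d * X ^ k + 1)).filter (fun n => W ∣ n)) ⊆
          (range (2 * d * X ^ k / W + 1)).image (fun m => W * m) := by
        intro n hn
        rw [mem_filter, mem_range] at hn
        obtain ⟨h8, m, rfl⟩ := hn
        rw [mem_image]
        refine ⟨m, ?_, rfl⟩
        rw [mem_range, Nat.lt_succ_iff, Nat.le_div_iff_mul_le hW]
        rw [mul_comm]
        omega
      exact (card_le_card h7).trans (card_image_le.trans (by rw [card_range]))
    have h8 : ((S.filter (fun n => ¬ n < u₀)).card : ℝ) ≤ ((2 * d * X ^ k / W + 1 : ℕ) : ℝ) := by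
      exact_mod_cast (card_filter_le _ _).trans h6
    refine h8.trans ?_
    push_cast
    have h9 : ((2 * d * X ^ k / W : ℕ) : ℝ) ≤ ((2 * d * X ^ k : ℕ) : ℝ) / W := Nat.cast_div_le
    push_cast at h9
    linarith
  have hWR : (1 : ℝ) ≤ W := by exact_mod_cast hW
  have hLR : (1 : ℝ) ≤ L := by exact_mod_cast hL1
  have hXR : (X : ℝ) ≤ 2 * (W * L) := by exact_mod_cast hX2
  have hX0 : (0 : ℝ) ≤ X := by positivity
  have hWd : (1 : ℝ) ≤ (W : ℝ) ^ (d - 1) := one_le_pow₀ hWR
  have hLd : (1 : ℝ) ≤ (L : ℝ) ^ d := one_le_pow₀ hLR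
  have hd1 : (1 : ℝ) ≤ d := by exact_mod_cast (by omega : 1 ≤ d)
  -- the three bounds
  have g1 : (u₀ : ℝ) ^ d ≤ (L : ℝ) ^ d * (W : ℝ) ^ (d - 1) := by
    have : (u₀ : ℝ) ^ d ≤ (L : ℝ) ^ d := by
      apply pow_le_pow_left₀ (by positivity)
      exact_mod_cast (by omega : u₀ ≤ L)
    nlinarith
  have g2 : (X : ℝ) ^ k / W * (X : ℝ) ^ (d - k) ≤ 2 ^ d * ((L : ℝ) ^ d * (W : ℝ) ^ (d - 1)) := by
    have e1 : (X : ℝ) ^ k / W * (X : ℝ) ^ (d - k) = (X : ℝ) ^ d / W := by
      rw [div_mul_eq_mul_div, ← pow_add]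
      congr 2
      omega
    rw [e1, div_le_iff₀ (by linarith)]
    calc (X : ℝ) ^ d ≤ (2 * (W * L)) ^ d := pow_le_pow_left₀ hX0 hXR d
      _ = 2 ^ d * ((L : ℝ) ^ d * (W : ℝ) ^ d) := by rw [mul_pow, mul_pow]; ring
      _ = 2 ^ d * ((L : ℝ) ^ d * ((W : ℝ) ^ (d - 1) * W)) := by
          rw [← pow_succ]
          congr 3
          omega
      _ = _ := by ring
  have g3 : (X : ℝ) ^ (d - k) ≤ 2 * ((L : ℝ) ^ d * (W : ℝ) ^ (d - 1)) := by
    have hp1 : 1 ≤ (L : ℝ) ^ d * (W : ℝ) ^ (d - 1) := by nlinarith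
    rcases hd with hd | hd
    · rw [hd, Nat.sub_self, pow_zero]
      rw [hd] at hp1
      linarith
    · have e2 : d - k = 1 := by omega
      rw [e2, pow_one]
      refine hXR.trans ?_
      have h5 : (W : ℝ) ≤ (W : ℝ) ^ (d - 1) := le_self_pow₀ hWR (by omega)
      have h6 : (L : ℝ) ≤ (L : ℝ) ^ d := le_self_pow₀ hLR (by omega)
      have h7 : (W : ℝ) * L ≤ (W : ℝ) ^ (d - 1) * (L : ℝ) ^ d :=
        mul_le_mul h5 h6 (by linarith) (by linarith)
      linarith
  have h9 : (L : ℝ) ^ d * (TH854.KS.M W k d : ℝ) ≤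
      (u₀ : ℝ) ^ d + (2 * d * (X : ℝ) ^ k / W + 1) * (C * (2 * d * (X : ℝ) ^ (d - k))) := by
    have h10 : ((L ^ d * TH854.KS.M W k d : ℕ) : ℝ) ≤ ((∑ n ∈ S.filter (fun n => n < u₀),
        (B.filter (fun y => ∑ i, A k q t (y i + s) = n)).card + ∑ n ∈ S.filter (fun n => ¬ n < u₀),
      (B.filter (fun y => ∑ i, A k q t (y i + s) = n)).card : ℕ) : ℝ) := by exact_mod_cast h1
    have h11 : ((∑ n ∈ S.filter (fun n => n < u₀),
      (B.filter (fun y => ∑ i, A k q t (y i + s) = n)).card : ℕ) : ℝ) ≤ (u₀ : ℝ) ^ d := by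
      exact_mod_cast h2
    rw [Nat.cast_add] at h10
    rw [Nat.cast_mul, Nat.cast_pow] at h10
    linarith
  have h10 : (2 * d * (X : ℝ) ^ k / W + 1) * (C * (2 * d * (X : ℝ) ^ (d - k))) =
      (4 * d ^ 2 * C) * ((X : ℝ) ^ k / W * (X : ℝ) ^ (d - k)) +
        (2 * d * C) * (X : ℝ) ^ (d - k) := by
    ring
  have h11 : (4 * (d : ℝ) ^ 2 * C) * ((X : ℝ) ^ k / W * (X : ℝ) ^ (d - k)) ≤
      (4 * (d : ℝ) ^ 2 * C) * (2 ^ d * ((L : ℝ) ^ d * (W : ℝ) ^ (d - 1))) :=
    mul_le_mul_of_nonneg_left g2 (by positivity)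
  have h12 : (2 * (d : ℝ) * C) * (X : ℝ) ^ (d - k) ≤
      (2 * (d : ℝ) * C) * (2 * ((L : ℝ) ^ d * (W : ℝ) ^ (d - 1))) :=
    mul_le_mul_of_nonneg_left g3 (by positivity)
  have h13 : (L : ℝ) ^ d * (TH854.KS.M W k d : ℝ) ≤
      (L : ℝ) ^ d * ((1 + 4 * d ^ 2 * 2 ^ d * C + 4 * d * C) * (W : ℝ) ^ (d - 1)) := by
    calc (L : ℝ) ^ d * (TH854.KS.M W k d : ℝ) ≤ (L : ℝ) ^ d * (W : ℝ) ^ (d - 1) +
          ((4 * (d : ℝ) ^ 2 * C) * (2 ^ d * ((L : ℝ) ^ d * (W : ℝ) ^ (d - 1))) +
          (2 * (d : ℝ) * C) * (2 * ((L : ℝ) ^ d * (W : ℝ) ^ (d - 1)))) := by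
            rw [h10] at h9
            linarith
      _ = _ := by ring
  exact le_of_mul_le_mul_left h13 (by linarith)

theorem t_LOWD : Pool.Agent.V5helper50.RC.S_LOWD := by
  intro k K q d hk hd1 hd hq hqm t ht ⟨c, C, hc, u₀, hu⟩
  rcases Nat.lt_or_ge d k with hlt | hge
  · have hk0 : (0 : ℝ) < k := by exact_mod_cast (by omega : 0 < k)
    have hs : 0 < 1 - (d : ℝ) / k := by
      rw [sub_pos, div_lt_one hk0]
      exact_mod_cast hlt
    have hlim : Filter.Tendsto (fun u : ℕ => C * (u : ℝ) ^ (-(1 - (d : ℝ) / k))) Filter.atTop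
        (nhds (C * 0)) :=
      ((tendsto_rpow_neg_atTop hs).comp tendsto_natCast_atTop_atTop).const_mul C
    rw [mul_zero] at hlim
    have hev := hlim.eventually_lt_const (show (0 : ℝ) < 1 by norm_num)
    obtain ⟨u₁, hu₁⟩ := Filter.eventually_atTop.mp hev
    set x := max u₀ u₁ with hx
    set u := A k q t x with hu_def
    have hxu : x ≤ u := le_A (by omega) t x
    have h0 : A k q t 0 = 0 := by
      have h1 : t 0 < Tk k 0 := ht 0
      unfold Tk at h1
      rw [zero_pow (by omega : k - 1 ≠ 0)] at h1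
      unfold A
      rw [zero_pow (by omega : k ≠ 0)]
      simp at h1
      simp [h1]
    have hmem : (fun i : Fin d => if (i : ℕ) = 0 then (x : ℤ) else 0) ∈
        {z : Fin d → ℤ | ∑ i, A k q t (z i).natAbs = u} := by
      show ∑ i : Fin d, A k q t (if (i : ℕ) = 0 then (x : ℤ) else 0).natAbs = u
      rw [Finset.sum_eq_single (⟨0, by omega⟩ : Fin d)]
      · simp [hu_def]
      · intro i _ hi
        have : (i : ℕ) ≠ 0 := fun h => hi (Fin.ext h)
        rw [if_neg this]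
        simpa using h0
      · intro h
        exact absurd (mem_univ _) h
    have hN : 1 ≤ N k q t d u := by
      unfold N
      exact (Set.ncard_pos (N_finite (by omega) t d u)).mpr ⟨_, hmem⟩
    have h1 := (hu u ((le_max_left _ _).trans hxu) (by omega)).2
    have h2 := hu₁ u ((le_max_right _ _).trans hxu)
    have h3 : (d : ℝ) / k - 1 = -(1 - (d : ℝ) / k) := by ring
    rw [h3] at h1
    have h4 : (1 : ℝ) ≤ (N k q t d u : ℝ) := by exact_mod_cast hN
    linarith
  · have hdk : d = k ∨ d = k + 1 := by omega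
    have hC0 : 0 ≤ |C| := abs_nonneg C
    obtain ⟨W, hW, hWM⟩ := unb hk hdk (2 + 4 * d ^ 2 * 2 ^ d * |C| + 4 * d * |C|)
    obtain ⟨x₀, hx₀⟩ := hqm W hW
    have h1 := avg hk hdk hq hW hx₀ t ht u₀ |C| hC0 (by
      intro u hu'
      by_cases h0 : N k q t d u = 0
      · rw [h0]
        rw [Nat.cast_zero]
        positivity
      · have h2 := (hu u hu' h0).2
        refine h2.trans (mul_le_mul_of_nonneg_right (le_abs_self C) (by positivity)))
    have hW1 : (0 : ℝ) < (W : ℝ) ^ (d - 1) := by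
      have : (0 : ℝ) < W := by exact_mod_cast hW
      positivity
    nlinarith

end V5helper96.RC
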